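import Pool.Agent.TH462.SC.Sm

set_option autoImplicit false
set_option linter.unusedSectionVars false

/-! # The two sides of a small cut of a smallest counterexample in the class -/

open Finset

namespace Pool.Agent.TH462.SC

open Pool.Agent.Helper347.Sab
open Pool.Agent.H444.FA
open Pool.Agent.H10R3.SC

section

variable {V E : Type} [Fintype V] [DecidableEq V] [Fintype E] [DecidableEq E]

/-- the graph with the gadget `g` in place of the outside of `X` is allowed -/
def OkG (G : MGraph V E) (X : Finset V) {a b : ℕ} (g : Fin b → Sym2 (V ⊕ Fin a)) : Prop :=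
  ∀ hg, TWH (ext G g hg) (inG (ins G univ X)) ∨
    (univ.filter fun v => dg (ext G g hg) (inG (ins G univ X)) v ≠ 0).card ≤ 14

/-- all gadgets with four legs are allowed -/
def Ok4 (G : MGraph V E) (X : Finset V) (y : Fin 4 → V) : Prop :=
  ∀ k l l' : Fin 4, k ≠ 0 → l ≠ 0 → l' ≠ 0 → k ≠ l → k ≠ l' → l ≠ l' →
    OkG G X (gPar y k l l') ∧ OkG G X (gTree y k l l')

theorem MinT.br {G : MGraph V E} {C : Finset E} (h : MinT G C) :
    ∀ Y : Finset V, (cut G univ Y).card ≠ 1 :=
  (frUniv evCut G h.cub h.bri C h.circ).br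

theorem redT {G : MGraph V E} {C : Finset E} (h : MinT G C) {X : Finset V}
    {d : ℕ} {y x : Fin d → V} {ℓ : Fin d → E} (hc : Cr G X y x ℓ) (hd : 2 ≤ d)
    (hN : d = 4 → N23 G) {a b : ℕ} {g : Fin b → Sym2 (V ⊕ Fin a)} (hg1 : Gdt y g) (hg2 : NB y g)
    (hg : ∀ j, ¬ (g j).IsDiag) (hok : OkG G X g) (T : Finset (Fin b))
    (hD : IsCircuit (ext G g hg) (newD G C X T)) :
    Good (ext G g hg) (inG (ins G univ X)) (newD G C X T) := by
  obtain ⟨h1, h2⟩ := parts.degX V E G h.cub X d y x ℓ hc hd a b g hg1 hg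
  refine h.good _ _ _ (by
    rcases hok hg with h3 | h3
    · exact Or.inl ⟨h2, h3⟩
    · exact Or.inr h3) ?_ hD h1
    (parts.brX V E G X d y x ℓ hc h.br hN a b g hg2 hg)
  rintro (e | k) he
  · rw [inl_mem_inG]
    unfold newD at he
    rw [mem_union, mem_inE, mem_map] at he
    rcases he with he | ⟨k, _, hk⟩
    · exact (mem_inter.1 he).2
    · exact absurd hk (by simp)
  · exact inr_mem_inG _ _

/-- a set of classes of `C`-legs for the two-leg case -/
theorem sideE {G : MGraph V E} {C : Finset E} (h : MinT G C) {X : Finset V}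
    {y x : Fin 2 → V} {ℓ : Fin 2 → E} (hc : Cr G X y x ℓ) (hl : ∀ j, ℓ j ∈ C) (hok : OkG G X (gEdge y)) :
    RX G C X y P2 := by
  have g1 := (TGadF.gad V).2.2 y hc.yinj
  have hg := edge_diag y hc.yinj
  refine (parts.tyA V E G C X).1 y x ℓ hc g1 hg ?_
  refine redT h hc (le_refl _) (fun h => absurd h (by norm_num)) g1
    ((parts.nb V).2.2 y hc.yinj) hg hok _ ?_
  refine parts.circ2 V E G C h.circ X 2 y x ℓ hc 0 1 (by decide) ?_ _ _ _ g1 hg {0} ?_ ?_ ?_
  · intro j
    fin_cases j
    · simp [hl]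
    · simp [hl]
  · intro j
    rw [filter_singleton]
    fin_cases j
    · simp [gEdge]
    · simp [gEdge]
  · intro w
    exact w.elim0
  · intro T0 hT0 _
    rcases subset_singleton_iff.1 hT0 with h | h
    · exact Or.inl h
    · exact Or.inr h

theorem sideC {G : MGraph V E} {C : Finset E} (h : MinT G C) {X : Finset V}
    {y x : Fin 3 → V} {ℓ : Fin 3 → E} (hc : Cr G X y x ℓ) (hl : ∀ j, ℓ j ∈ C ↔ (j : ℕ) < 2)
    (hok : OkG G X (gClaw y)) :
    RX G C X y P3 := by
  have g1 := (TGadF.gad V).2.1 y hc.yinj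
  have hg := claw_diag y
  have hy := hc.yinj
  refine (parts.tyA V E G C X).2 y x ℓ hc g1 hg ?_
  refine redT h hc (by norm_num) (fun h => absurd h (by norm_num)) g1
    ((parts.nb V).2.1 y hc.yinj) hg hok _ ?_
  refine parts.circ2 V E G C h.circ X 3 y x ℓ hc 0 1 (by decide) ?_ _ _ _ g1 hg {0, 1} ?_ ?_ ?_
  · intro j
    rw [hl]
    fin_cases j <;> simp
  · intro j
    rw [filter_insert, filter_singleton]
    fin_cases j <;> simp [gClaw, hy.eq_iff]
  · intro w
    right
    rw [filter_insert, filter_singleton]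
    fin_cases w
    simp [gClaw]
  · intro T0 hT0 hev
    have h0 := hev 0
    revert h0
    have : ∀ T0 : Finset (Fin 3), T0 ⊆ {0, 1} → Even T0.card → T0 = ∅ ∨ T0 = {0, 1} := by decide
    intro h0
    apply this T0 hT0
    rwa [filter_true_of_mem] at h0
    intro k hk
    fin_cases k <;> simp [gClaw]

theorem sideT1 {G : MGraph V E} {C : Finset E} (h : MinT G C) (hN : N23 G)
    {X : Finset V} {y x : Fin 4 → V} {ℓ : Fin 4 → E} (hc : Cr G X y x ℓ) (hok : Ok4 G X y)
    (hl : ∀ j, ℓ j ∈ C ↔ (j : ℕ) < 2) :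
    (RX G C X y PS ∨ RX G C X y PQ) ∧ (RX G C X y PS ∨ RX G C X y PR) ∧
      (RX G C X y PQ ∨ RX G C X y PR) := by
  have hy := hc.yinj
  have hl' : ∀ j : Fin 4, ℓ j ∈ C ↔ j = 0 ∨ j = 1 := by
    intro j
    rw [hl]
    revert j
    decide
  refine ⟨?_, ?_, ?_⟩
  · have g1 := ((TGadF.gad V).1 y hy 2 1 3 (by decide) (by decide) (by decide) (by decide)
      (by decide) (by decide)).2
    have hg := tree_diag y 2 1 3
    refine (parts.tyB V E G C X y x ℓ hc).1 g1 hg ?_
    refine redT h hc (by norm_num) (fun _ => hN) g1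
      ((parts.nb V).1 y hy 2 1 3 (by decide) (by decide) (by decide) (by decide)
      (by decide) (by decide)).2 hg (hok 2 1 3 (by decide) (by decide) (by decide) (by decide)
      (by decide) (by decide)).2 _ ?_
    refine parts.circ2 V E G C h.circ X 4 y x ℓ hc 0 1 (by decide) hl' _ _ _ g1 hg {0, 2, 3} ?_ ?_ ?_
    · intro j
      simp only [tree_inl y hy]
      revert j
      decide
    · intro w
      fin_cases w
      · right
        simp only [Fin.zero_eta, tree_inr0]
        decide
      · right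
        simp only [Fin.mk_one, tree_inr1]
        decide
    · intro T0 hT0 hev
      have h0 := hev 0
      have h1 := hev 1
      simp only [tree_inr0, tree_inr1] at h0 h1
      exact decT1 T0 hT0 h0 h1
  · have g1 := ((TGadF.gad V).1 y hy 3 1 2 (by decide) (by decide) (by decide) (by decide)
      (by decide) (by decide)).2
    have hg := tree_diag y 3 1 2
    refine (parts.tyB V E G C X y x ℓ hc).2 g1 hg ?_
    refine redT h hc (by norm_num) (fun _ => hN) g1
      ((parts.nb V).1 y hy 3 1 2 (by decide) (by decide) (by decide) (by decide)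
      (by decide) (by decide)).2 hg (hok 3 1 2 (by decide) (by decide) (by decide) (by decide)
      (by decide) (by decide)).2 _ ?_
    refine parts.circ2 V E G C h.circ X 4 y x ℓ hc 0 1 (by decide) hl' _ _ _ g1 hg {0, 2, 3} ?_ ?_ ?_
    · intro j
      simp only [tree_inl y hy]
      revert j
      decide
    · intro w
      fin_cases w
      · right
        simp only [Fin.zero_eta, tree_inr0]
        decide
      · right
        simp only [Fin.mk_one, tree_inr1]
        decide
    · intro T0 hT0 hev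
      have h0 := hev 0
      have h1 := hev 1
      simp only [tree_inr0, tree_inr1] at h0 h1
      exact decT1 T0 hT0 h0 h1
  · have g1 := ((TGadF.gad V).1 y hy 1 2 3 (by decide) (by decide) (by decide) (by decide)
      (by decide) (by decide)).2
    have hg := tree_diag y 1 2 3
    refine parts.tyC V E G C X y x ℓ hc g1 hg ?_
    refine redT h hc (by norm_num) (fun _ => hN) g1
      ((parts.nb V).1 y hy 1 2 3 (by decide) (by decide) (by decide) (by decide)
      (by decide) (by decide)).2 hg (hok 1 2 3 (by decide) (by decide) (by decide) (by decide)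
      (by decide) (by decide)).2 _ ?_
    refine parts.circ2 V E G C h.circ X 4 y x ℓ hc 0 1 (by decide) hl' _ _ _ g1 hg {0, 1} ?_ ?_ ?_
    · intro j
      simp only [tree_inl y hy]
      revert j
      decide
    · intro w
      fin_cases w
      · right
        simp only [Fin.zero_eta, tree_inr0]
        decide
      · left
        simp only [Fin.mk_one, tree_inr1]
        decide
    · intro T0 hT0 hev
      have h0 := hev 0
      simp only [tree_inr0] at h0
      exact decT2 T0 hT0 h0

/-- all four legs in `C` -/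
theorem sideT4 {G : MGraph V E} {C : Finset E} (h : MinT G C) (hN : N23 G)
    {X : Finset V} {y x : Fin 4 → V} {ℓ : Fin 4 → E} (hc : Cr G X y x ℓ) (hok : Ok4 G X y)
    (hl : ∀ j, ℓ j ∈ C) {m : Fin 4} (hm : m ≠ 0)
    (hP : ∃ P, P ⊆ C ∩ ins G univ X ∧ ∀ v, Odd (dg G P v) ↔ (v = y 0 ∨ v = y m))
    (k l l' : Fin 4) (hk : k ≠ 0) (hl1 : l ≠ 0) (hl2 : l' ≠ 0) (h1 : k ≠ l) (h2 : k ≠ l')
    (h3 : l ≠ l') (hmk : m ≠ k) :
    (RX G C X y PO ∨ RX G C X y (PM k)) ∧ (RX G C X y (PM l) ∨ RX G C X y (PM l')) := by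
  have hy := hc.yinj
  refine ⟨?_, ?_⟩
  · have g1 := ((TGadF.gad V).1 y hy k l l' hk hl1 hl2 h1 h2 h3).1
    have hg := par_diag y hy k l l' hk h3
    refine parts.tyD V E G C X y x ℓ hc k l l' hk hl1 hl2 h1 h2 h3 g1 hg ?_
    refine redT h hc (by norm_num) (fun _ => hN) g1
      ((parts.nb V).1 y hy k l l' hk hl1 hl2 h1 h2 h3).1 hg (hok k l l' hk hl1 hl2 h1 h2 h3).1 _ ?_
    refine parts.circ4 V E G C h.circ X y x ℓ hc hl m k hm hk hmk hP _ _ _ g1 hg univ {0} {1}
      (subset_univ _) (by decide) ?_ ?_ ?_ ?_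
    · intro j
      rw [← g1.leg j]
    · intro j
      rw [filter_singleton]
      simp only [gPar, Matrix.cons_val_zero, Sym2.mem_iff, Sum.inl.injEq, hy.eq_iff]
      split_ifs <;> rfl
    · intro w
      exact w.elim0
    · intro T0 _ _
      exact decP T0
  · have g1 := ((TGadF.gad V).1 y hy k l l' hk hl1 hl2 h1 h2 h3).2
    have hg := tree_diag y k l l'
    refine parts.tyE V E G C X y x ℓ hc k l l' hk hl1 hl2 h1 h2 h3 g1 hg ?_
    refine redT h hc (by norm_num) (fun _ => hN) g1
      ((parts.nb V).1 y hy k l l' hk hl1 hl2 h1 h2 h3).2 hg (hok k l l' hk hl1 hl2 h1 h2 h3).2 _ ?_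
    refine parts.circ4 V E G C h.circ X y x ℓ hc hl m k hm hk hmk hP _ _ _ g1 hg {0, 1, 3, 4} {0, 1}
      {3, 4} (by decide) (by decide) ?_ ?_ ?_ ?_
    · intro j
      simp only [tree_inl y hy]
      exact decA k l l' hk hl1 hl2 h1 h2 h3 j
    · intro j
      simp only [tree_inl y hy]
      exact decB k l l' hk j
    · intro w
      fin_cases w
      · right
        simp only [Fin.zero_eta, tree_inr0]
        decide
      · right
        simp only [Fin.mk_one, tree_inr1]
        decide
    · intro T0 hT0 hev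
      have h0 := hev 0
      have h1 := hev 1
      simp only [tree_inr0, tree_inr1] at h0 h1
      exact decT3 T0 hT0 h0 h1

end

end Pool.Agent.TH462.SC
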