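import Pool.Agent.TH462.SC.Off

set_option autoImplicit false
set_option linter.unusedSectionVars false

/-! # Small cuts of a smallest counterexample in the class -/

open Finset

namespace Pool.Agent.TH462.SC

open Pool.Agent.Helper347.Sab
open Pool.Agent.H444.FA
open Pool.Agent.H10R3.SC
open Pool.Agent.TH499.TF (Joins Ad Grow HasTD)

section

variable {V E : Type} [Fintype V] [DecidableEq V] [Fintype E] [DecidableEq E]

theorem cutC0 {G : MGraph V E} {C : Finset E} {Y : Finset V} (h0 : cut G univ Y = ∅) :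
    cut G C Y = ∅ := by
  have h4 := card_le_card (cut_mono (G := G) (subset_univ C) Y)
  rw [h0] at h4
  exact card_eq_zero.1 (Nat.le_zero.1 h4)

theorem MinT.off_of_in {G : MGraph V E} {C : Finset E} (h : MinT G C) {Y : Finset V}
    (h5 : ∀ v, dg G C v = 2 → v ∈ Y) : ∀ v ∈ Yᶜ, dg G C v = 0 := by
  intro v hv
  rcases h.circ.2.1 v with h6 | h6
  · exact h6
  · exact absurd (h5 v h6) (mem_compl.1 hv)

theorem MinT.off_of_out {G : MGraph V E} {C : Finset E} (h : MinT G C) {Y : Finset V}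
    (h5 : ∀ v, dg G C v = 2 → v ∉ Y) : ∀ v ∈ Y, dg G C v = 0 := by
  intro v hv
  rcases h.circ.2.1 v with h6 | h6
  · exact h6
  · exact absurd hv (h5 v h6)

theorem connT {G : MGraph V E} {C : Finset E} (h : MinT G C) (Y : Finset V)
    (h1 : Y.Nonempty) (h2 : Yᶜ.Nonempty) : (cut G univ Y).card ≠ 0 := by
  intro h0
  have h3 : cut G univ Y = ∅ := card_eq_zero.1 h0
  rcases side V E G C Y h.circ (cutC0 h3) with h5 | h5
  · exact off0 h (h.off_of_in h5) h2 (by rw [ExtFr.cut_compl]; exact h3)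
  · exact off0 h (h.off_of_out h5) h1 h3

theorem joins_of {G : MGraph V E} {src dst : E → V} (he : ∀ e, G.ends e = s(src e, dst e)) {e : E}
    {a b : V} (ha : a ∈ G.ends e) (hb : b ∈ G.ends e) (hab : a ≠ b) : Joins src dst e a b := by
  rw [he, Sym2.mem_iff] at ha hb
  rcases ha with rfl | rfl
  · rcases hb with rfl | rfl
    · exact absurd rfl hab
    · exact Or.inl ⟨rfl, rfl⟩
  · rcases hb with rfl | rfl
    · exact Or.inr ⟨rfl, rfl⟩
    · exact absurd rfl hab

theorem growT {G : MGraph V E} {C : Finset E} (h : MinT G C) {src dst : E → V}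
    (he : ∀ e, G.ends e = s(src e, dst e)) (Y : Finset V) (hY : Y.Nonempty)
    (h3 : (cut G univ Y).card ≤ 3) : Grow src dst Y := by
  classical
  obtain ⟨v, hv⟩ := hY
  obtain ⟨W, hW, hmax⟩ := (Y.powerset.filter fun W => Grow src dst W ∧ W.Nonempty).exists_max_image
    card ⟨{v}, by
      rw [mem_filter, mem_powerset]
      exact ⟨singleton_subset_iff.2 hv, Grow.one v, singleton_nonempty v⟩⟩
  rw [mem_filter, mem_powerset] at hW
  obtain ⟨hWY, hWg, hWn⟩ := hW
  by_contra hne
  have hZ : (Y \ W).Nonempty := by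
    rw [nonempty_iff_ne_empty]
    intro h0
    rw [sdiff_eq_empty_iff_subset] at h0
    exact hne (subset_antisymm hWY h0 ▸ hWg)
  have hno : ∀ e a b, a ∈ G.ends e → b ∈ G.ends e → a ∈ W → b ∈ Y \ W → False := by
    intro e a b ha hb haW hbZ
    rw [mem_sdiff] at hbZ
    have h5 : Grow src dst (insert b W) := Grow.add W b a e hWg hbZ.2 haW
      (joins_of he hb ha (fun h => hbZ.2 (h ▸ haW)))
    have h6 := hmax (insert b W) (by
      rw [mem_filter, mem_powerset]
      exact ⟨insert_subset hbZ.1 hWY, h5, insert_nonempty b W⟩)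
    rw [card_insert_of_notMem hbZ.2] at h6
    omega
  obtain ⟨w, hw⟩ := hWn
  obtain ⟨z, hz⟩ := hZ
  have c1 := connT h W ⟨w, hw⟩ ⟨z, mem_compl.2 (mem_sdiff.1 hz).2⟩
  have c2 := h.br W
  have c3 := connT h (Y \ W) ⟨z, hz⟩ ⟨w, by
    rw [mem_compl, mem_sdiff]; exact fun hh => hh.2 hw⟩
  have c4 := h.br (Y \ W)
  have hdis : Disjoint (cut G univ W) (cut G univ (Y \ W)) := by
    rw [disjoint_left]
    intro e h5 h6
    rw [mem_cut] at h5 h6
    obtain ⟨_, ⟨a, ha, haW⟩, _⟩ := h5
    obtain ⟨_, ⟨b, hb, hbZ⟩, _⟩ := h6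
    exact hno e a b ha hb haW hbZ
  have hsub : cut G univ W ∪ cut G univ (Y \ W) ⊆ cut G univ Y := by
    intro e h5
    rw [mem_union] at h5
    rcases h5 with h5 | h5
    · rw [mem_cut] at h5 ⊢
      obtain ⟨h6, ⟨a, ha, haW⟩, b, hb, hbW⟩ := h5
      refine ⟨h6, ⟨a, ha, hWY haW⟩, b, hb, fun hbY => ?_⟩
      exact hno e a b ha hb haW (mem_sdiff.2 ⟨hbY, hbW⟩)
    · rw [mem_cut] at h5 ⊢
      obtain ⟨h6, ⟨a, ha, haZ⟩, b, hb, hbZ⟩ := h5
      refine ⟨h6, ⟨a, ha, (mem_sdiff.1 haZ).1⟩, b, hb, fun hbY => ?_⟩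
      by_cases hbW : b ∈ W
      · exact hno e b a hb ha hbW haZ
      · exact hbZ (mem_sdiff.2 ⟨hbY, hbW⟩)
  have h7 := card_le_card hsub
  rw [card_union_of_disjoint hdis] at h7
  omega

/-- distinct ends from a bound on the degrees on both sides -/
theorem dgcutT {G : MGraph V E} {C : Finset E} (h : MinT G C) (Y : Finset V)
    (hd : ∀ X : Finset V, (X = Y ∨ X = Yᶜ) → ∀ v ∈ X,
      2 ≤ dg G (cut G univ Y) v →
      (cut G univ (X.erase v)).card + 2 * dg G (cut G univ Y) v = (cut G univ Y).card + 3 →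
      False) : ∀ v, dg G (cut G univ Y) v ≤ 1 := by
  intro v
  by_contra hlt
  by_cases hv : v ∈ Y
  · exact hd Y (Or.inl rfl) v hv (by omega) (parts.erase V E G h.cub Y v hv)
  · have h1 := parts.erase V E G h.cub Yᶜ v (mem_compl.2 hv)
    rw [ExtFr.cut_compl] at h1
    exact hd Yᶜ (Or.inr rfl) v (mem_compl.2 hv) (by omega) h1

theorem evenT {G : MGraph V E} {C : Finset E} (h : MinT G C) (Y : Finset V) :
    Even (cut G C Y).card :=
  evCut V E G C Y (circ_ev h.circ)

/-- no cut with two edges -/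
theorem no2T (s6 : S6) {G : MGraph V E} {C : Finset E} (h : MinT G C) (Y : Finset V) :
    (cut G univ Y).card ≠ 2 := by
  intro h2
  obtain ⟨n1, n2⟩ := nonempty_of (G := G) (Y := Y) (by omega)
  obtain ⟨src, dst, he, htd⟩ := h.tw
  have g1 := growT h he Y n1 (by omega)
  have g2 := growT h he Yᶜ n2 (by rw [ExtFr.cut_compl]; omega)
  obtain ⟨t, ht⟩ := evenT h Y
  have hle := cutC_le (G := G) (C := C) Y
  have hd := dgcutT h Y (fun X _ v _ q1 q2 => by
    have := h.br (X.erase v)
    omega)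
  obtain ⟨y, x, ℓ, hc, hl⟩ := parts.legsX V E G C Y 2 _ h2 rfl hd
  have ok1 : OkG G Y (gEdge y) := fun hg => Or.inl (by
    have := (s6 V E G src dst he htd Yᶜ g2).2 x y ℓ hc.symm hg
    rwa [compl_compl] at this)
  have ok2 : OkG G Yᶜ (gEdge x) := fun hg => Or.inl ((s6 V E G src dst he htd Y g1).2 y x ℓ hc hg)
  by_cases h0 : (cut G C Y).card = 0
  · rcases side V E G C Y h.circ (card_eq_zero.1 h0) with h5 | h5
    · exact off2 h (h.off_of_in h5) hc.symm (by rw [compl_compl]; exact ok1)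
    · exact off2 h (h.off_of_out h5) hc ok2
  · have hl' : ∀ j, ℓ j ∈ C := fun j => (hl j).2 (by have := j.isLt; omega)
    apply h.no
    apply goodCdc G h.cub C h.circ
    refine parts.glueX V E G C Y 2 y x ℓ hc P2 ?_ (sideE h hc hl' ok1) (sideE h hc.symm hl' ok2)
    intro j
    unfold mS
    rw [if_pos (hl' j)]
    revert j
    decide

/-- cuts with three edges are trivial -/
theorem no3T (s6 : S6) {G : MGraph V E} {C : Finset E} (h : MinT G C) (Y : Finset V)
    (h3 : (cut G univ Y).card = 3) : Y.card ≤ 1 ∨ Yᶜ.card ≤ 1 := by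
  by_contra hcon
  push Not at hcon
  obtain ⟨k1, k2⟩ := hcon
  obtain ⟨n1, n2⟩ := nonempty_of (G := G) (Y := Y) (by omega)
  obtain ⟨src, dst, he, htd⟩ := h.tw
  have g1 := growT h he Y n1 (by omega)
  have g2 := growT h he Yᶜ n2 (by rw [ExtFr.cut_compl]; omega)
  obtain ⟨t, ht⟩ := evenT h Y
  have hle := cutC_le (G := G) (C := C) Y
  have hd := dgcutT h Y (fun X hX v hv q1 q2 => by
    have e1 := no2T s6 h (X.erase v)
    have e2 : (cut G univ (X.erase v)).card ≠ 0 := by
      apply connT h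
      · have : 1 < X.card := by
          rcases hX with rfl | rfl
          · exact k1
          · exact k2
        rw [← card_pos, card_erase_of_mem hv]
        omega
      · exact ⟨v, by rw [mem_compl]; exact notMem_erase v X⟩
    omega)
  obtain ⟨y, x, ℓ, hc, hl⟩ := parts.legsX V E G C Y 3 _ h3 rfl hd
  have ok1 : OkG G Y (gClaw y) := fun hg => Or.inl (by
    have := (s6 V E G src dst he htd Yᶜ g2).1 x y ℓ hc.symm hg
    rwa [compl_compl] at this)
  have ok2 : OkG G Yᶜ (gClaw x) := fun hg => Or.inl ((s6 V E G src dst he htd Y g1).1 y x ℓ hc hg)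
  by_cases h0 : (cut G C Y).card = 0
  · rcases side V E G C Y h.circ (card_eq_zero.1 h0) with h5 | h5
    · exact off3 h (h.off_of_in h5) hc.symm (by rw [compl_compl]; exact ok1)
    · exact off3 h (h.off_of_out h5) hc ok2
  · have hc2 : (cut G C Y).card = 2 := by omega
    rw [hc2] at hl
    apply h.no
    apply goodCdc G h.cub C h.circ
    refine parts.glueX V E G C Y 3 y x ℓ hc P3 ?_ (sideC h hc hl ok1) (sideC h hc.symm hl ok2)
    intro j
    unfold mS
    simp only [hl]
    revert j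
    decide

/-- small sides are allowed -/
theorem okSmall {G : MGraph V E} {X : Finset V} (hX : X.card ≤ 12) {d a b : ℕ} {y : Fin d → V}
    {g : Fin b → Sym2 (V ⊕ Fin a)} (hg1 : Gdt y g) (hy : ∀ j, y j ∈ X) : OkG G X g := by
  intro hg
  right
  have hsub : (univ.filter fun v => dg (ext G g hg) (inG (ins G univ X)) v ≠ 0) ⊆
      X.map ⟨Sum.inl, Sum.inl_injective⟩ ∪
        (univ : Finset (Fin a)).map ⟨Sum.inr, Sum.inr_injective⟩ := by
    intro v hv
    rw [mem_filter] at hv
    rw [mem_union, mem_map, mem_map]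
    rcases v with v | w
    · left
      obtain ⟨e, he⟩ := card_pos.1 (Nat.pos_of_ne_zero hv.2)
      rw [mem_filter] at he
      obtain ⟨he1, he2⟩ := he
      refine ⟨v, ?_, rfl⟩
      rcases e with e | k
      · rw [inl_mem_inG] at he1
        unfold ins at he1
        rw [mem_filter] at he1
        apply he1.2
        have h3 : (Sum.inl v : V ⊕ Fin a) ∈ (G.ends e).map Sum.inl := he2
        rw [Sym2.mem_map] at h3
        obtain ⟨u, hu, huv⟩ := h3
        rw [← Sum.inl_injective huv]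
        exact hu
      · obtain ⟨j, rfl⟩ := hg1.old k v he2
        exact hy j
    · right
      exact ⟨w, mem_univ _, rfl⟩
  refine (card_le_card hsub).trans ((card_union_le _ _).trans ?_)
  rw [card_map, card_map, card_univ, Fintype.card_fin]
  have := hg1.a2
  omega

theorem okSmall4 {G : MGraph V E} {X : Finset V} (hX : X.card ≤ 12) {y : Fin 4 → V}
    (hinj : Function.Injective y) (hy : ∀ j, y j ∈ X) : Ok4 G X y := by
  intro k l l' h1 h2 h3 h4 h5 h6
  have h7 := (TGadF.gad V).1 y hinj k l l' h1 h2 h3 h4 h5 h6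
  exact ⟨okSmall hX h7.1 hy, okSmall hX h7.2 hy⟩

/-- no cuts with four edges and a small rich side -/
theorem noRich (s5 : S5) {G : MGraph V E} {C : Finset E} (h : MinT G C) (hN : N23 G)
    {src dst : E → V} (he : ∀ e, G.ends e = s(src e, dst e)) (Y : Finset V) (k1 : 3 ≤ Y.card)
    (k2 : 3 ≤ Yᶜ.card) (hs : Y.card ≤ 12) (h4 : (cut G univ Y).card = 4) (hR : Rich src dst Y) :
    False := by
  obtain ⟨t, ht⟩ := evenT h Y
  have hle := cutC_le (G := G) (C := C) Y
  have hd := dgcutT h Y (fun X hX v hv q1 q2 => by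
    have e1 := h.br (X.erase v)
    have e2 : (cut G univ (X.erase v)).card ≠ 3 := by
      intro h5
      have h6 := card_erase_of_mem hv
      have h8 : (X.erase v)ᶜ.card + (X.erase v).card = Fintype.card V := by
        rw [add_comm]; exact card_add_card_compl _
      have h9 : Y.card + Yᶜ.card = Fintype.card V := card_add_card_compl _
      have h10 : X.card = Y.card ∨ X.card = Yᶜ.card := by
        rcases hX with rfl | rfl
        · exact Or.inl rfl
        · exact Or.inr rfl
      rcases hN.2 (X.erase v) h5 with h7 | h7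
      · omega
      · omega
    omega)
  have okk : ∀ (y x : Fin 4 → V) (ℓ : Fin 4 → E), Cr G Y y x ℓ → Ok4 G Y y ∧ Ok4 G Yᶜ x := by
    intro y x ℓ hc
    refine ⟨okSmall4 hs hc.yinj hc.yin, ?_⟩
    intro k l l' h1 h2 h3 h4 h5 h6
    have hy := hc.yinj
    have hg : GadTD src dst Y (y 0) (y k) (y l) (y l') := by
      apply hR
      · simp only [List.nodup_cons, List.mem_cons, List.not_mem_nil, or_false, not_or,
          not_false_eq_true, List.nodup_nil, and_true, hy.eq_iff]
        exact ⟨⟨Ne.symm h1, Ne.symm h2, Ne.symm h3⟩, ⟨h4, h5⟩, h6⟩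
      · have key : ∀ j, y j ∈ Y ∧ ∃ z, z ∉ Y ∧ Ad src dst (y j) z := by
          intro j
          have hne : y j ≠ x j := fun hh => hc.xout j (hh ▸ hc.yin j)
          refine ⟨hc.yin j, x j, hc.xout j, hne, ℓ j, joins_of he ?_ ?_ hne⟩
          · rw [hc.ends]; exact Sym2.mem_mk_left _ _
          · rw [hc.ends]; exact Sym2.mem_mk_right _ _
        intro t ht
        simp only [List.mem_cons, List.not_mem_nil, or_false] at ht
        rcases ht with rfl | rfl | rfl | rfl
        · exact key _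
        · exact key _
        · exact key _
        · exact key _
    have h7 := s5 V E G src dst he Y y x ℓ hc k l l' h1 h2 h3 h4 h5 h6 hg
    exact ⟨fun hg => Or.inl (h7.2 hg), fun hg => Or.inl (h7.1 hg)⟩
  by_cases h0 : (cut G C Y).card = 0
  · obtain ⟨y, x, ℓ, hc, hl⟩ := parts.legsX V E G C Y 4 _ h4 rfl hd
    obtain ⟨ok1, ok2⟩ := okk y x ℓ hc
    rcases side V E G C Y h.circ (card_eq_zero.1 h0) with h5 | h5
    · exact off4 h hN (h.off_of_in h5) hc.symm (by rw [compl_compl]; exact ok1)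
    · exact off4 h hN (h.off_of_out h5) hc ok2
  apply h.no
  apply goodCdc G h.cub C h.circ
  by_cases hc2 : (cut G C Y).card = 2
  · obtain ⟨y, x, ℓ, hc, hl⟩ := parts.legsX V E G C Y 4 2 h4 hc2 hd
    obtain ⟨ok1, ok2⟩ := okk y x ℓ hc
    have hcard : ∀ P : Fin 4 → Finset (Fin 3), (P = PS ∨ P = PQ ∨ P = PR) →
        ∀ j, (P j).card = mS C (ℓ j) := by
      intro P hP j
      unfold mS
      simp only [hl]
      rcases hP with rfl | rfl | rfl
      · revert j
        decide
      · revert j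
        decide
      · revert j
        decide
    obtain ⟨a1, a2, a3⟩ := sideT1 h hN hc ok1 hl
    obtain ⟨b1, b2, b3⟩ := sideT1 h hN hc.symm ok2 hl
    have glue : ∀ P : Fin 4 → Finset (Fin 3), (P = PS ∨ P = PQ ∨ P = PR) → RX G C Y y P →
        RX G C Yᶜ x P → Good G univ C := fun P hP q1 q2 =>
      parts.glueX V E G C Y 4 y x ℓ hc P (hcard P hP) q1 q2
    by_cases s1 : RX G C Y y PS
    · by_cases s2 : RX G C Yᶜ x PS
      · exact glue PS (Or.inl rfl) s1 s2
      · have t1 := b1.resolve_left s2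
        have t2 := b2.resolve_left s2
        rcases a3 with u | u
        · exact glue PQ (Or.inr (Or.inl rfl)) u t1
        · exact glue PR (Or.inr (Or.inr rfl)) u t2
    · have t1 := a1.resolve_left s1
      have t2 := a2.resolve_left s1
      rcases b3 with u | u
      · exact glue PQ (Or.inr (Or.inl rfl)) t1 u
      · exact glue PR (Or.inr (Or.inr rfl)) t2 u
  · have hc4 : (cut G C Y).card = 4 := by omega
    obtain ⟨y, x, ℓ, hc, hl⟩ := parts.legsX V E G C Y 4 4 h4 hc4 hd
    obtain ⟨ok1, ok2⟩ := okk y x ℓ hc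
    have hl' : ∀ j, ℓ j ∈ C := fun j => (hl j).2 j.isLt
    obtain ⟨m, m', hm, hm', hmm, hP, hP'⟩ := parts.pair V E G C h.circ Y y x ℓ hc hl'
    obtain ⟨k, hk, hkm, hkm'⟩ := decM m m' hm hm' hmm
    have glue : ∀ P : Fin 4 → Finset (Fin 3), (P = PO ∨ ∃ r, P = PM r) → RX G C Y y P →
        RX G C Yᶜ x P → Good G univ C := by
      intro P hP q1 q2
      refine parts.glueX V E G C Y 4 y x ℓ hc P ?_ q1 q2
      intro j
      unfold mS
      rw [if_pos (hl' j)]
      rcases hP with rfl | ⟨r, rfl⟩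
      · rfl
      · unfold PM
        split_ifs <;> rfl
    obtain ⟨a1, a2⟩ := sideT4 h hN hc ok1 hl' hm hP m' m k hm' hm hk hmm.symm hkm'.symm hkm.symm hmm
    obtain ⟨a3, a4⟩ := sideT4 h hN hc ok1 hl' hm hP k m m' hk hm hm' hkm hkm' hmm hkm.symm
    obtain ⟨b1, b2⟩ := sideT4 h hN hc.symm ok2 hl' hm' hP' m m' k hm hm' hk hmm hkm.symm hkm'.symm
      hmm.symm
    obtain ⟨b3, b4⟩ := sideT4 h hN hc.symm ok2 hl' hm' hP' k m m' hk hm hm' hkm hkm' hmm hkm'.symm
    by_cases s1 : RX G C Y y PO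
    · by_cases s2 : RX G C Yᶜ x PO
      · exact glue PO (Or.inl rfl) s1 s2
      · have t1 := b1.resolve_left s2
        have t2 := b3.resolve_left s2
        rcases a2 with u | u
        · exact glue _ (Or.inr ⟨_, rfl⟩) u t1
        · exact glue _ (Or.inr ⟨_, rfl⟩) u t2
    · have t1 := a1.resolve_left s1
      have t2 := a3.resolve_left s1
      rcases b2 with u | u
      · exact glue _ (Or.inr ⟨_, rfl⟩) t1 u
      · exact glue _ (Or.inr ⟨_, rfl⟩) t2 u

end

/-- **The main theorem**, from the parts. -/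
theorem main (s5 : S5) (s6 : S6) (s7 : S7) : ∀ (n : ℕ) (V E : Type) [Fintype V] [DecidableEq V]
    [Fintype E] [DecidableEq E] (G : MGraph V E), Fintype.card E = n → TWG G → IsCubic G →
    (∀ e : E, ∃ X : Finset E, IsCircuit G X ∧ e ∈ X) → ∀ C : Finset E, IsCircuit G C →
    ∃ F : Multiset (Finset E), IsCDC G F ∧ C ∈ F := by
  intro n
  induction n using Nat.strong_induction_on with
  | _ n ih =>
    intro V E _ _ _ _ G hn htw hG hbr C hC
    by_contra hno
    have h : MinT G C := ⟨hG, hbr, hC, hno, htw, fun V' E' _ _ _ _ G' hlt htw' hG' hbr' C' hC' =>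
      ih _ (hn ▸ hlt) V' E' G' rfl htw' hG' hbr' C' hC'⟩
    by_cases hV : Fintype.card V ≤ 14
    · exact hno (cdc14 G hG hbr C hC hV)
    obtain ⟨src, dst, he, htd⟩ := id htw
    obtain ⟨e0, _⟩ := hC.1
    obtain ⟨X, h2, h12, hX⟩ := s7 V E G src dst hG he htd ⟨e0⟩
    have hcc : X.card + Xᶜ.card = Fintype.card V := card_add_card_compl _
    have hN : N23 G := ⟨no2T s6 h, no3T s6 h⟩
    rcases hX with h3 | ⟨h4, h5, hR⟩
    · have n1 : X.Nonempty := card_pos.1 (by omega)
      have n2 : Xᶜ.Nonempty := card_pos.1 (by omega)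
      have c0 := connT h X n1 n2
      have c1 := h.br X
      have c2 := no2T s6 h X
      rcases no3T s6 h X (by omega) with q | q
      · omega
      · omega
    · exact noRich s5 h hN he X h5 (by omega) h12 h4 hR

end Pool.Agent.TH462.SC
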