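import Pool.Agent.TH462.SC.Ch

set_option autoImplicit false
set_option linter.unusedSectionVars false

/-! # Sets off the circuit that are left by few edges -/

open Finset

namespace Pool.Agent.TH462.SC

open Pool.Agent.Helper347.Sab
open Pool.Agent.H444.FA
open Pool.Agent.H10R3.SC

section

variable {V E : Type} [Fintype V] [DecidableEq V] [Fintype E] [DecidableEq E]

theorem insCompl (G : MGraph V E) (Y : Finset V) :
    ins G univ Yᶜ = univ \ tou G univ Y := by
  ext e
  rw [ExtFr.mem_A]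
  unfold ins
  rw [mem_filter]
  simp only [mem_compl]

theorem crLg {G : MGraph V E} {Y : Finset V} {d : ℕ} {y x : Fin d → V} {ℓ : Fin d → E}
    (hc : Cr G Y y x ℓ) : Lg G univ Y x ℓ where
  xinj := hc.xinj
  xout := hc.xout
  linj := DegX.linj hc
  mem j := by rw [hc.ends j]; exact Sym2.mem_mk_right _ _
  cut := hc.cut

/-- edges of `C` do not touch a set off `C` -/
theorem offSub {G : MGraph V E} {C : Finset E} {Y : Finset V} (hY : ∀ v ∈ Y, dg G C v = 0) :
    C ⊆ univ \ tou G univ Y := by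
  intro e he
  rw [mem_sdiff]
  refine ⟨mem_univ _, fun h => ?_⟩
  unfold tou at h
  rw [mem_filter] at h
  obtain ⟨-, u, hu, huX⟩ := h
  have h7 := dg_pos_of_mem (G := G) he hu
  have h8 := hY u huX
  omega

theorem offKey {G : MGraph V E} {C : Finset E} (h : MinT G C) {Y : Finset V}
    (hY : ∀ v ∈ Y, dg G C v = 0) {d : ℕ} {y x : Fin d → V} {ℓ : Fin d → E} (hc : Cr G Y y x ℓ)
    (hd : 2 ≤ d) (hN : d = 4 → N23 G) {a b : ℕ} {g : Fin b → Sym2 (V ⊕ Fin a)} (hg1 : Gdt x g)
    (hg2 : NB x g) (hg : ∀ j, ¬ (g j).IsDiag) (hok : OkG G Yᶜ g) :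
    Good (ext G g hg) (inG (univ \ tou G univ Y)) (inE C) := by
  have h1 := redT h hc.symm hd hN hg1 hg2 hg hok ∅ (by
    unfold newD
    rw [insCompl, map_empty, union_empty, inter_eq_left.2 (offSub hY)]
    exact circ V E G a b g hg C h.circ)
  unfold newD at h1
  rw [insCompl, map_empty, union_empty, inter_eq_left.2 (offSub hY)] at h1
  exact h1

theorem off2 {G : MGraph V E} {C : Finset E} (h : MinT G C) {Y : Finset V}
    (hY : ∀ v ∈ Y, dg G C v = 0) {y x : Fin 2 → V} {ℓ : Fin 2 → E} (hc : Cr G Y y x ℓ)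
    (hok : OkG G Yᶜ (gEdge x)) : False := by
  apply h.no
  apply goodCdc G h.cub C h.circ
  have hL := crLg hc
  have hle : ∀ v, dg G univ v ≤ 3 := fun v => (h.cub v).le
  have hcovY := touCover cutBr G univ hle h.br Y x ℓ hL
  have hone := hL.one
  have hu : (univ : Finset E) \ tou G univ Y ∪ tou G univ Y = univ :=
    sdiff_union_of_subset (subset_univ _)
  rw [← hu]
  exact core2 glue patEven V E G (univ \ tou G univ Y) (tou G univ Y) C sdiff_disjoint (offSub hY)
    x hL.xinj hone hcovY (edge V E G (univ \ tou G univ Y) C (offSub hY) x hL.xinj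
      (edge_diag x hL.xinj) (offKey h hY hc (le_refl _) (fun h => absurd h (by norm_num))
        ((TGadF.gad V).2.2 x hL.xinj) ((parts.nb V).2.2 x hL.xinj) (edge_diag x hL.xinj) hok))

theorem off3 {G : MGraph V E} {C : Finset E} (h : MinT G C) {Y : Finset V}
    (hY : ∀ v ∈ Y, dg G C v = 0) {y x : Fin 3 → V} {ℓ : Fin 3 → E} (hc : Cr G Y y x ℓ)
    (hok : OkG G Yᶜ (gClaw x)) : False := by
  apply h.no
  apply goodCdc G h.cub C h.circ
  have hL := crLg hc
  have hle : ∀ v, dg G univ v ≤ 3 := fun v => (h.cub v).le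
  have hcovY := touCover cutBr G univ hle h.br Y x ℓ hL
  have hone := hL.one
  have hu : (univ : Finset E) \ tou G univ Y ∪ tou G univ Y = univ :=
    sdiff_union_of_subset (subset_univ _)
  rw [← hu]
  exact core3 glue patEven V E G (univ \ tou G univ Y) (tou G univ Y) C sdiff_disjoint (offSub hY)
    x hL.xinj hone hcovY (claw V E G (univ \ tou G univ Y) C (offSub hY) x hL.xinj
      (claw_diag x) (offKey h hY hc (by norm_num) (fun h => absurd h (by norm_num))
        ((TGadF.gad V).2.1 x hL.xinj) ((parts.nb V).2.1 x hL.xinj) (claw_diag x) hok))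

theorem off4 {G : MGraph V E} {C : Finset E} (h : MinT G C) (hN : N23 G) {Y : Finset V}
    (hY : ∀ v ∈ Y, dg G C v = 0) {y x : Fin 4 → V} {ℓ : Fin 4 → E} (hc : Cr G Y y x ℓ)
    (hok : Ok4 G Yᶜ x) : False := by
  apply h.no
  apply goodCdc G h.cub C h.circ
  have hL := crLg hc
  have hle : ∀ v, dg G univ v ≤ 3 := fun v => (h.cub v).le
  have hcovY := touCover cutBr G univ hle h.br Y x ℓ hL
  have hone := hL.one
  have hinj := hL.xinj
  have hu : (univ : Finset E) \ tou G univ Y ∪ tou G univ Y = univ :=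
    sdiff_union_of_subset (subset_univ _)
  rw [← hu]
  have hP : ∀ k l l' : Fin 4, k ≠ 0 → l ≠ 0 → l' ≠ 0 → k ≠ l → k ≠ l' → l ≠ l' →
      ∃ (n : ℕ) (X : Fin n → Finset E), PC G (univ \ tou G univ Y) (mS C) x X ∧
        (∀ i, (pat G x X i).card = 2) ∧ pat G x X 0 = pat G x X k := by
    intro k l l' hk hl hl' hkl hkl' hll'
    exact par V E G (univ \ tou G univ Y) C (offSub hY) x hinj k l l' hk hl hl' hkl hkl' hll'
      (par_diag x hinj k l l' hk hll')
      (offKey h hY hc (by norm_num) (fun _ => hN)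
        ((TGadF.gad V).1 x hinj k l l' hk hl hl' hkl hkl' hll').1
        ((parts.nb V).1 x hinj k l l' hk hl hl' hkl hkl' hll').1
        (par_diag x hinj k l l' hk hll') (hok k l l' hk hl hl' hkl hkl' hll').1)
  have hT : ∀ k l l' : Fin 4, k ≠ 0 → l ≠ 0 → l' ≠ 0 → k ≠ l → k ≠ l' → l ≠ l' →
      ∃ (n : ℕ) (X : Fin n → Finset E), PC G (univ \ tou G univ Y) (mS C) x X ∧
        (∀ i, (pat G x X i).card = 2) ∧ (pat G x X 0 ∩ pat G x X k).card = 1 := by
    intro k l l' hk hl hl' hkl hkl' hll'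
    exact tree V E G (univ \ tou G univ Y) C (offSub hY) x hinj k l l' hk hl hl' hkl hkl' hll'
      (tree_diag x k l l')
      (offKey h hY hc (by norm_num) (fun _ => hN)
        ((TGadF.gad V).1 x hinj k l l' hk hl hl' hkl hkl' hll').2
        ((parts.nb V).1 x hinj k l l' hk hl hl' hkl hkl' hll').2
        (tree_diag x k l l') (hok k l l' hk hl hl' hkl hkl' hll').2)
  have f4 : ∀ k : Fin 4, k = 0 ∨ k = 1 ∨ k = 2 ∨ k = 3 := by decide
  refine all_core4 V E G (univ \ tou G univ Y) (tou G univ Y) C sdiff_disjoint (offSub hY)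
    (fun v => (dg_mono (subset_univ _) v).trans (hle v)) x hinj hone hcovY ?_ ?_
  · intro k hk
    rcases f4 k with rfl | rfl | rfl | rfl
    · exact absurd rfl hk
    · exact hP 1 2 3 (by decide) (by decide) (by decide) (by decide) (by decide) (by decide)
    · exact hP 2 1 3 (by decide) (by decide) (by decide) (by decide) (by decide) (by decide)
    · exact hP 3 1 2 (by decide) (by decide) (by decide) (by decide) (by decide) (by decide)
  · intro k hk
    rcases f4 k with rfl | rfl | rfl | rfl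
    · exact absurd rfl hk
    · exact hT 1 2 3 (by decide) (by decide) (by decide) (by decide) (by decide) (by decide)
    · exact hT 2 1 3 (by decide) (by decide) (by decide) (by decide) (by decide) (by decide)
    · exact hT 3 1 2 (by decide) (by decide) (by decide) (by decide) (by decide) (by decide)

/-- a part without leaving edges -/
theorem off0 {G : MGraph V E} {C : Finset E} (h : MinT G C) {Y : Finset V}
    (hY : ∀ v ∈ Y, dg G C v = 0) (hne : Y.Nonempty) (h0 : cut G univ Y = ∅) : False := by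
  apply h.no
  apply goodCdc G h.cub C h.circ
  have hL : Lg G univ Y (fun j : Fin 0 => (j.elim0 : V)) (fun j : Fin 0 => (j.elim0 : E)) :=
    ⟨fun j => j.elim0, fun j => j.elim0, fun j => j.elim0, fun j => j.elim0, fun e => by
      rw [h0]
      exact ⟨fun h => absurd h (notMem_empty e), fun ⟨j, _⟩ => j.elim0⟩⟩
  have hle : ∀ v, dg G univ v ≤ 3 := fun v => (h.cub v).le
  have hu : (univ : Finset E) \ tou G univ Y ∪ tou G univ Y = univ :=
    sdiff_union_of_subset (subset_univ _)
  obtain ⟨src, dst, he, htd⟩ := h.tw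
  obtain ⟨v, hv⟩ := hne
  obtain ⟨e0, he0⟩ : ∃ e0, e0 ∈ tou G univ Y := by
    have h1 : (univ.filter fun e => v ∈ G.ends e).card = 3 := h.cub v
    obtain ⟨e0, he0⟩ := card_pos.1 (by omega : 0 < (univ.filter fun e => v ∈ G.ends e).card)
    exact ⟨e0, mem_filter.2 ⟨mem_univ _, v, (mem_filter.1 he0).2, hv⟩⟩
  have hgood : Good G (univ \ tou G univ Y) C := by
    refine h.good G _ C (Or.inl ⟨?_, ?_⟩) (offSub hY) h.circ ?_ ?_
    · rw [← card_univ]
      apply card_lt_card
      rw [ssubset_iff_of_subset (subset_univ _)]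
      exact ⟨e0, mem_univ _, fun hh => (mem_sdiff.1 hh).2 he0⟩
    · refine ⟨V, E, src, dst, id, htd, fun u v _ _ huv => huv, fun e _ => ⟨e, fun u hu => ?_⟩⟩
      rw [he e, Sym2.mem_iff] at hu
      exact hu
    · intro u
      by_cases hu : u ∈ Y
      · left
        exact ExtFr.dgA_in hu
      · right
        rw [ExtFr.dgA_out hL hu (fun j => j.elim0)]
        exact h.cub u
    · intro Z
      have h1 : cut G (univ \ tou G univ Y) Z = cut G univ (Z \ Y) := by
        ext e
        rw [mem_cut, mem_cut, ExtFr.mem_A]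
        constructor
        · rintro ⟨⟨_, h2⟩, ⟨a, ha, haZ⟩, b, hb, hbZ⟩
          exact ⟨mem_univ _, ⟨a, ha, mem_sdiff.2 ⟨haZ, h2 a ha⟩⟩, b, hb,
            fun hh => hbZ (mem_sdiff.1 hh).1⟩
        · rintro ⟨_, ⟨a, ha, haZ⟩, b, hb, hbZ⟩
          have haY := (mem_sdiff.1 haZ).2
          have hno : ∀ c, c ∈ G.ends e → c ∉ Y := by
            intro c hc hcY
            have h2 : e ∈ cut G univ Y := mem_cut.2 ⟨mem_univ _, ⟨c, hc, hcY⟩, a, ha, haY⟩
            rw [h0] at h2
            exact absurd h2 (notMem_empty e)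
          exact ⟨⟨mem_univ _, hno⟩, ⟨a, ha, (mem_sdiff.1 haZ).1⟩, b, hb,
            fun hh => hbZ (mem_sdiff.2 ⟨hh, hno b hb⟩)⟩
      rw [h1]
      exact h.br _
  obtain ⟨m, Z, z1, z2, z3⟩ := hgood
  obtain ⟨Y', hY'⟩ := touCover cutBr G univ hle h.br Y _ _ hL
  rw [← hu]
  exact glue V E G (univ \ tou G univ Y) (tou G univ Y) C sdiff_disjoint
    (offSub hY) 0 _ (Fin m) Z ⟨z1, z2, fun c v _ => z3 c v⟩ Y' hY'
    (Fin 0) ⟨Fin.elim0, fun i => Fin.elim0 i⟩ ⟨Fin.elim0, fun i => Fin.elim0 i⟩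
    (fun i => Fin.elim0 i) (fun i => Fin.elim0 i) (fun i => Fin.elim0 i)

end

end Pool.Agent.TH462.SC
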