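import Pool.Agent.TH462.SC.Stm

set_option autoImplicit false
set_option linter.unusedSectionVars false

/-! # A small part that is left by few edges -/

open Finset

namespace Pool.Agent.TH462.SC

open Pool.Agent.Helper347.Sab
open Pool.Agent.H10R3.SC
open Pool.Agent.TH499.TF (Joins Ad N3 Dbl G5 NoC HasTD Grow)

section

variable {V E : Type} [Fintype V] [DecidableEq V] [Fintype E] [DecidableEq E]

theorem cutPair {G : MGraph V E} (hG : IsCubic G) {x z : V} (hxz : x ≠ z) {e f : E} (hef : e ≠ f)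
    (he : G.ends e = s(x, z)) (hf : G.ends f = s(x, z)) : (cut G univ {x, z}).card ≤ 3 := by
  have h1 := sum_dg_le G univ {x, z}
  rw [sum_pair hxz, hG x, hG z] at h1
  have h2 : ({e, f} : Finset E) ⊆ ins G univ {x, z} := by
    intro g hg
    unfold ins
    rw [mem_filter]
    refine ⟨mem_univ _, fun u hu => ?_⟩
    rw [mem_insert, mem_singleton] at hg ⊢
    rcases hg with rfl | rfl
    · rw [he, Sym2.mem_iff] at hu
      exact hu
    · rw [hf, Sym2.mem_iff] at hu
      exact hu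
  have h3 := card_le_card h2
  rw [card_pair hef] at h3
  omega

theorem other_end {G : MGraph V E} {e : E} {x : V} (hx : x ∈ G.ends e) :
    ∃ z, x ≠ z ∧ G.ends e = s(x, z) := by
  obtain ⟨z, hz⟩ := hx
  refine ⟨z, fun h => ?_, hz⟩
  apply G.loopless e
  rw [hz, h]
  rfl

theorem ad_of {G : MGraph V E} {src dst : E → V} (he : ∀ e, G.ends e = s(src e, dst e)) {e : E}
    {x z : V} (hxz : x ≠ z) (hz : G.ends e = s(x, z)) : Ad src dst x z := by
  refine ⟨hxz, e, ?_⟩
  rw [he, Sym2.eq_iff] at hz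
  exact hz

/-- three distinct neighbours, or a pair of vertices with a double edge -/
theorem deg3 {G : MGraph V E} (hG : IsCubic G) {src dst : E → V}
    (he : ∀ e, G.ends e = s(src e, dst e))
    (hno : ∀ X : Finset V, 2 ≤ X.card → X.card ≤ 12 → (cut G univ X).card ≤ 3 → False) (x : V) :
    ∃ a b c, a ≠ b ∧ b ≠ c ∧ a ≠ c ∧ Ad src dst x a ∧ Ad src dst x b ∧ Ad src dst x c := by
  have h1 : (univ.filter fun e => x ∈ G.ends e).card = 3 := hG x
  obtain ⟨e1, e2, e3, h12, h13, h23, hs⟩ := card_eq_three.1 h1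
  have k1 : x ∈ G.ends e1 := (mem_filter.1 (hs ▸ (by simp) : e1 ∈ univ.filter fun e => x ∈ G.ends e)).2
  have k2 : x ∈ G.ends e2 := (mem_filter.1 (hs ▸ (by simp) : e2 ∈ univ.filter fun e => x ∈ G.ends e)).2
  have k3 : x ∈ G.ends e3 := (mem_filter.1 (hs ▸ (by simp) : e3 ∈ univ.filter fun e => x ∈ G.ends e)).2
  obtain ⟨a, ha, ea⟩ := other_end k1
  obtain ⟨b, hb, eb⟩ := other_end k2
  obtain ⟨c, hc, ec⟩ := other_end k3
  have key : ∀ {z w : V} {e f : E}, x ≠ z → e ≠ f → G.ends e = s(x, z) → G.ends f = s(x, w) →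
      z ≠ w := by
    rintro z w e f hz hef ee ef rfl
    refine hno {x, z} ?_ ?_ (cutPair hG hz hef ee ef)
    · rw [card_pair hz]
    · rw [card_pair hz]; norm_num
  exact ⟨a, b, c, key ha h12 ea eb, key hb h23 eb ec, key ha h13 ea ec, ad_of he ha ea,
    ad_of he hb eb, ad_of he hc ec⟩

theorem s7 (s2 : S2) (sa : S7a) (sb : S7b) (sc : S7c) (sd : S7d) : S7 := by
  intro V E _ _ _ _ G src dst hG he htd hE
  by_contra hcon
  push Not at hcon
  have hno : ∀ X : Finset V, 2 ≤ X.card → X.card ≤ 12 → (cut G univ X).card ≤ 3 → False :=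
    fun X h1 h2 h3 => absurd (hcon X h1 h2).1 (by omega)
  have hno4 : ∀ X : Finset V, 3 ≤ X.card → X.card ≤ 12 → (cut G univ X).card ≤ 4 →
      Rich src dst X → False := by
    intro X h1 h2 h3 h4
    obtain ⟨q1, q2⟩ := hcon X (by omega) h2
    exact q2 (by omega) h1 h4
  have hcard : ∀ l : List V, l.Nodup → l.toFinset.card = l.length :=
    fun l hl => List.toFinset_card_of_nodup hl
  obtain ⟨e0⟩ := hE
  refine s2 V E src dst htd ⟨src e0, dst e0, ?_, e0, Or.inl ⟨rfl, rfl⟩⟩
    (fun x y _ => deg3 hG he hno x) ⟨⟨?_, ?_, ?_, ?_⟩, ?_, ?_, ?_, ?_⟩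
  · intro h
    apply G.loopless e0
    rw [he, h]
    rfl
  · exact fun x hx => hx.1 rfl
  · exact fun x y h => h.symm
  · intro x y z h1 h2 h3
    have hnd : [x, y, z].Nodup := by
      simp only [List.nodup_cons, List.mem_cons, List.not_mem_nil, or_false, not_or,
        not_false_eq_true, List.nodup_nil, and_true]
      exact ⟨⟨h1.1, h3.1.symm⟩, h2.1⟩
    have hc := hcard _ hnd
    have hX : [x, y, z].toFinset = {x, y, z} := by simp
    rw [hX] at hc
    refine hno {x, y, z} ?_ ?_ ((sc V E G src dst hG he).2.2 x y z h1 h2 h3)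
    · rw [hc]; norm_num
    · rw [hc]; norm_num
  · intro x y z w h1 h2 h3 h4 h5 h6
    have hnd : [x, y, z, w].Nodup := by
      simp only [List.nodup_cons, List.mem_cons, List.not_mem_nil, or_false, not_or,
        not_false_eq_true, List.nodup_nil, and_true]
      exact ⟨⟨h3.1, h1, h6.1.symm⟩, ⟨h4.1, h2⟩, h5.1⟩
    have hc := hcard _ hnd
    have hX : [x, y, z, w].toFinset = {x, y, z, w} := by simp
    rw [hX] at hc
    obtain ⟨q1, q2⟩ := sd V E G src dst hG he htd x y z w hnd h3 h4 h5 h6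
    refine hno4 {x, y, z, w} ?_ ?_ q1 q2
    · rw [hc]; norm_num
    · rw [hc]; norm_num
  · intro x y a b c d x' y' hnd h1 h2
    have hc := hcard _ hnd
    have hX : [x, y, a, b, c, d, x', y'].toFinset = {x, y, a, b, c, d, x', y'} := by simp
    rw [hX] at hc
    obtain ⟨q1, q2⟩ := sa V E G src dst hG he htd x y a b c d x' y' hnd h1 h2
    refine hno4 _ ?_ ?_ q1 q2
    · rw [hc]; norm_num
    · rw [hc]; norm_num
  · intro u v x1 x2 y1 y2 i i' j j' hnd h1 h2 h3 h4
    have hc := hcard _ hnd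
    have hX : [u, v, x1, x2, y1, y2, i, i', j, j'].toFinset =
        {u, v, x1, x2, y1, y2, i, i', j, j'} := by simp
    rw [hX] at hc
    obtain ⟨q1, q2⟩ := sb V E G src dst hG he htd u v x1 x2 y1 y2 i i' j j' hnd h1 h2 h3 h4
    refine hno4 _ ?_ ?_ q1 q2
    · rw [hc]; norm_num
    · rw [hc]; norm_num
  · intro x1 u a y1 n c x2 b y2 x3 y3 hnd h1 h2 h3
    have hc := hcard _ hnd
    have hX : [x1, u, a, y1, n, c, x2, b, y2, x3, y3].toFinset =
        {x1, u, a, y1, n, c, x2, b, y2, x3, y3} := by simp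
    rw [hX] at hc
    refine hno _ ?_ ?_ ((sc V E G src dst hG he).1 x1 u a y1 n c x2 b y2 x3 y3 hnd h1 h2 h3)
    · rw [hc]; norm_num
    · rw [hc]; norm_num
  · intro x1 u b y1 a n x2 c y2 x3 y3 hnd h1 h2 h3
    have hc := hcard _ hnd
    have hX : [x1, u, b, y1, a, n, x2, c, y2, x3, y3].toFinset =
        {x1, u, b, y1, a, n, x2, c, y2, x3, y3} := by simp
    rw [hX] at hc
    refine hno _ ?_ ?_ ((sc V E G src dst hG he).2.1 x1 u b y1 a n x2 c y2 x3 y3 hnd h1 h2 h3)
    · rw [hc]; norm_num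
    · rw [hc]; norm_num

end

end Pool.Agent.TH462.SC
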