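import Pool.Agent.TH462.SC.Stm

set_option autoImplicit false
set_option linter.unusedSectionVars false

/-! # Good covers of small graphs and of smaller graphs in the class -/

open Finset

namespace Pool.Agent.TH462.SC

open Pool.Agent.Helper347.Sab
open Pool.Agent.H444.FA
open Pool.Agent.H10R3.SC
open Pool.Agent.H181R5.MC (dg_map pos_of_mem dg_le)
open Pool.Agent.TH499.TF (HasTD)

/-- a good cover from circuit double covers of the subgraph as a graph of its own -/
theorem goodOf (h1 : TSubG) (h2 : TCdcGood) (h3 : TCutCirc) (V E : Type) [Fintype V]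
    [DecidableEq V] [Fintype E] [DecidableEq E] (G : MGraph V E) (H D : Finset E)
    (hmin : ∀ (V1 E1 : Type) [Fintype V1] [DecidableEq V1] [Fintype E1] [DecidableEq E1]
      (G1 : MGraph V1 E1) (f : V1 → V) (g : E1 → E), Function.Injective f → Function.Injective g →
      (∀ e, g e ∈ H) → (∀ e' v', v' ∈ G1.ends e' ↔ f v' ∈ G.ends (g e')) →
      (∀ v', dg G H (f v') ≠ 0) → Fintype.card E1 = H.card → IsCubic G1 →
      (∀ e : E1, ∃ X : Finset E1, IsCircuit G1 X ∧ e ∈ X) → ∀ D1 : Finset E1, IsCircuit G1 D1 →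
      ∃ F : Multiset (Finset E1), IsCDC G1 F ∧ D1 ∈ F)
    (hDH : D ⊆ H) (hD : IsCircuit G D) (hdeg : ∀ v, dg G H v = 0 ∨ dg G H v = 3)
    (hcut : ∀ Y : Finset V, (cut G H Y).card ≠ 1) : Good G H D := by
  obtain ⟨V1, E1, i1, i2, i3, i4, G1, f, g', hf, hg', hgH, hends', hrange, hcard⟩ := h1 V E G H
  obtain ⟨g, hgg⟩ : ∃ g : E1 ↪ E, ∀ e, g e = g' e := ⟨⟨g', hg'⟩, fun _ => rfl⟩
  have hends : ∀ e' v', v' ∈ G1.ends e' ↔ f v' ∈ G.ends (g e') := fun e' v' => by
    rw [hgg]; exact hends' e' v'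
  have hg : ∀ e, e ∈ H ↔ ∃ e', g e' = e := fun e => by
    rw [hgH]
    exact exists_congr fun e' => by rw [hgg]
  have hmem : ∀ e', g e' ∈ H := fun e' => (hg _).2 ⟨e', rfl⟩
  have hran : ∀ e' w, w ∈ G.ends (g e') → ∃ w', f w' = w := fun e' w hw =>
    (hrange w).1 (pos_of_mem G H _ (hmem e') w hw)
  have huniv : (univ : Finset E1).map g = H := by
    ext e
    simp only [mem_map, mem_univ, true_and]
    exact (hg e).symm
  have hcub : IsCubic G1 := by
    intro v
    rw [dg_map G G1 f g hends, huniv]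
    rcases hdeg (f v) with h | h
    · exact absurd h ((hrange _).2 ⟨v, rfl⟩)
    · exact h
  obtain ⟨D1, hD1⟩ : ∃ D1 : Finset E1, ∀ e, e ∈ D1 ↔ g e ∈ D :=
    ⟨univ.filter fun e => g e ∈ D, fun e => by simp⟩
  have hD1map : D1.map g = D := by
    ext e
    simp only [mem_map]
    constructor
    · rintro ⟨a, ha, rfl⟩
      exact (hD1 a).1 ha
    · intro he
      obtain ⟨a, ha⟩ := (hg e).1 (hDH he)
      exact ⟨a, (hD1 a).2 (by rw [ha]; exact he), ha⟩
  obtain ⟨hDne, hDdeg, hDcon⟩ := hD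
  have hlift : ∀ x y, Relation.ReflTransGen (fun a b => b ∈ D ∧ Touch G a b) x y →
      ∀ a, g a = x → ∃ b, g b = y ∧
        Relation.ReflTransGen (fun a b => b ∈ D1 ∧ Touch G1 a b) a b := by
    intro x y hxy
    induction hxy with
    | refl => intro a ha; exact ⟨a, ha, Relation.ReflTransGen.refl⟩
    | tail _ h ih =>
      intro a ha
      obtain ⟨b, hb, hab⟩ := ih a ha
      obtain ⟨hz, v, hv1, hv2⟩ := h
      obtain ⟨c, hc⟩ := (hg _).1 (hDH hz)
      refine ⟨c, hc, hab.tail ⟨(hD1 c).2 (by rw [hc]; exact hz), ?_⟩⟩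
      rw [← hb] at hv1
      rw [← hc] at hv2
      obtain ⟨w, rfl⟩ := hran b v hv1
      exact ⟨w, (hends b w).2 hv1, (hends c w).2 hv2⟩
  have hC1 : IsCircuit G1 D1 := by
    refine ⟨?_, ?_, ?_⟩
    · obtain ⟨e, he⟩ := hDne
      obtain ⟨a, ha⟩ := (hg e).1 (hDH he)
      exact ⟨a, (hD1 a).2 (by rw [ha]; exact he)⟩
    · intro v
      rw [dg_map G G1 f g hends, hD1map]
      exact hDdeg (f v)
    · intro a ha b hb
      obtain ⟨c, hc, hac⟩ := hlift _ _ (hDcon (g a) ((hD1 a).1 ha) (g b) ((hD1 b).1 hb)) a rfl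
      rw [← g.injective hc]
      exact hac
  have hcut1 : ∀ Y : Finset V1, (cut G1 univ Y).card ≠ 1 := by
    intro Y
    obtain ⟨Y', hY'⟩ : ∃ Y' : Finset V, ∀ v, v ∈ Y' ↔ ∃ w ∈ Y, f w = v :=
      ⟨Y.image f, fun v => by simp⟩
    have he : (cut G1 univ Y).map g = cut G H Y' := by
      ext e
      simp only [cut, mem_map, mem_filter, mem_univ, true_and]
      constructor
      · rintro ⟨a, ⟨⟨u, hu, hu'⟩, w, hw, hw'⟩, rfl⟩
        refine ⟨hmem a, ⟨f u, (hends a u).1 hu, (hY' _).2 ⟨u, hu', rfl⟩⟩, f w, (hends a w).1 hw,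
          fun h => ?_⟩
        obtain ⟨w2, h2', h3'⟩ := (hY' _).1 h
        rw [hf h3'] at h2'
        exact hw' h2'
      · rintro ⟨heH, ⟨u, hu, hu'⟩, w, hw, hw'⟩
        obtain ⟨a, rfl⟩ := (hg e).1 heH
        obtain ⟨u1, h4, rfl⟩ := (hY' u).1 hu'
        obtain ⟨w1, rfl⟩ := hran a w hw
        exact ⟨a, ⟨⟨u1, (hends a u1).2 hu, h4⟩, w1, (hends a w1).2 hw,
          fun h => hw' ((hY' _).2 ⟨w1, h, rfl⟩)⟩, rfl⟩
    rw [← Finset.card_map g, he]
    exact hcut Y'
  have hcdc : ∃ F : Multiset (Finset E1), IsCDC G1 F ∧ D1 ∈ F := by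
    exact hmin V1 E1 G1 f g hf g.injective hmem hends (fun v' => (hrange _).2 ⟨v', rfl⟩) hcard hcub
      (h3 V1 E1 G1 (fun v => (hcub v).le) hcut1) D1 hC1
  obtain ⟨F, hF, hDF⟩ := hcdc
  obtain ⟨k, Z, -, hZ2, hZ3⟩ := h2 V1 E1 G1 D1 F hF hDF
  refine ⟨k, fun c => (Z c).map g, fun c e he => ?_, fun e he => ?_, fun c v => ?_⟩
  · obtain ⟨a, -, rfl⟩ := mem_map.1 he
    exact hmem a
  · obtain ⟨a, rfl⟩ := (hg e).1 he
    have h5 := hZ2 a (mem_univ a)
    have h6 : (univ.filter fun c => g a ∈ (Z c).map g) = univ.filter fun c => a ∈ Z c := by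
      ext c
      simp only [mem_filter, mem_univ, true_and, Finset.mem_map']
    rw [h6, h5]
    unfold mS
    simp only [hD1 a]
  · by_cases hv : ∃ v', f v' = v
    · obtain ⟨v', rfl⟩ := hv
      rw [← dg_map G G1 f g hends]
      exact hZ3 c v'
    · have h7 : dg G H v = 0 := by
        by_contra h
        exact hv ((hrange v).1 h)
      have h8 : (Z c).map g ⊆ H := fun e he => by
        obtain ⟨a, -, rfl⟩ := mem_map.1 he
        exact hmem a
      have h9 := dg_le G h8 v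
      have h10 : dg G ((Z c).map g) v = 0 := by omega
      rw [h10]
      exact Even.zero



section

variable {V E : Type} [Fintype V] [DecidableEq V] [Fintype E] [DecidableEq E]

/-- every circuit is in a circuit double cover if there are at most 14 vertices -/
theorem cdc14 (G : MGraph V E) (hG : IsCubic G)
    (hb : ∀ e : E, ∃ X : Finset E, IsCircuit G X ∧ e ∈ X) (C : Finset E) (hC : IsCircuit G C)
    (hV : Fintype.card V ≤ 14) : ∃ F : Multiset (Finset E), IsCDC G F ∧ C ∈ F :=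
  allResult V E G hG hb C hC C hC (fun _ h => h) fun _ _ K _ =>
    Or.inr (Or.inr (Or.inl ((card_le_univ K).trans hV)))

/-- a smallest counterexample in the class -/
structure MinT (G : MGraph V E) (C : Finset E) : Prop where
  cub : IsCubic G
  bri : ∀ e : E, ∃ X : Finset E, IsCircuit G X ∧ e ∈ X
  circ : IsCircuit G C
  no : ¬ ∃ F : Multiset (Finset E), IsCDC G F ∧ C ∈ F
  tw : TWG G
  min : ∀ (V' E' : Type) [Fintype V'] [DecidableEq V'] [Fintype E'] [DecidableEq E']
    (G' : MGraph V' E'), Fintype.card E' < Fintype.card E → TWG G' → IsCubic G' →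
    (∀ e : E', ∃ X : Finset E', IsCircuit G' X ∧ e ∈ X) → ∀ C' : Finset E', IsCircuit G' C' →
    ∃ F : Multiset (Finset E'), IsCDC G' F ∧ C' ∈ F

/-- allowed smaller graphs -/
def Okh (n : ℕ) {V E : Type} [Fintype V] [DecidableEq V] [Fintype E] [DecidableEq E]
    (G : MGraph V E) (H : Finset E) : Prop :=
  (H.card < n ∧ TWH G H) ∨ (univ.filter fun v => dg G H v ≠ 0).card ≤ 14

theorem twg_of {V1 E1 : Type} [Fintype V1] [DecidableEq V1] [Fintype E1] [DecidableEq E1]
    {G : MGraph V E} {H : Finset E} (h : TWH G H) (G1 : MGraph V1 E1) (f : V1 → V) (g : E1 → E)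
    (hf : Function.Injective f) (hg : ∀ e, g e ∈ H)
    (hends : ∀ e' v', v' ∈ G1.ends e' ↔ f v' ∈ G.ends (g e')) (hd : ∀ v', dg G H (f v') ≠ 0) :
    TWG G1 := by
  classical
  obtain ⟨W, F, s, d, φ, ⟨n, par, B, h0, h1, h2, h4⟩, hφ, hF⟩ := h
  have hp : ∀ e : E1, ∃ p : V1 × V1, G1.ends e = s(p.1, p.2) := by
    intro e
    induction h : G1.ends e using Sym2.ind with
    | _ x y => exact ⟨(x, y), rfl⟩
  choose p hp using hp
  have hinj : Function.Injective (fun v => φ (f v)) := fun u v huv =>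
    hf (hφ _ _ (hd u) (hd v) huv)
  refine ⟨fun e => (p e).1, fun e => (p e).2, fun e => hp e, n, par,
    fun i => univ.filter (fun v => φ (f v) ∈ B i), h0, ?_, ?_, ?_⟩
  · intro e
    obtain ⟨k, hk⟩ := hF (g e) (hg e)
    obtain ⟨i, hi, hi1, hi2⟩ := h1 k
    have key : ∀ v, v ∈ G1.ends e → φ (f v) ∈ B i := by
      intro v hv
      rcases hk (f v) ((hends e v).1 hv) with h | h
      · rw [h]; exact hi1
      · rw [h]; exact hi2
    refine ⟨i, hi, ?_, ?_⟩
    · rw [mem_filter]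
      exact ⟨mem_univ _, key _ (by rw [hp e]; exact Sym2.mem_mk_left _ _)⟩
    · rw [mem_filter]
      exact ⟨mem_univ _, key _ (by rw [hp e]; exact Sym2.mem_mk_right _ _)⟩
  · intro i j v hji hin hi hj
    rw [mem_filter] at hi hj ⊢
    exact ⟨mem_univ _, h2 i j _ hji hin hi.2 hj.2⟩
  · intro i hi
    refine le_trans ?_ (h4 i hi)
    rw [← card_image_of_injective _ hinj]
    apply card_le_card
    intro w hw
    obtain ⟨v, hv, rfl⟩ := mem_image.1 hw
    exact (mem_filter.1 hv).2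

/-- good covers of the allowed smaller graphs -/
theorem MinT.good {V0 E0 : Type} [Fintype V0] [DecidableEq V0] [Fintype E0] [DecidableEq E0]
    {G0 : MGraph V0 E0} {C0 : Finset E0} (h : MinT G0 C0) (G : MGraph V E) (H D : Finset E)
    (hok : Okh (Fintype.card E0) G H)
    (hDH : D ⊆ H) (hD : IsCircuit G D) (hdeg : ∀ v, dg G H v = 0 ∨ dg G H v = 3)
    (hcut : ∀ Y : Finset V, (cut G H Y).card ≠ 1) : Good G H D := by
  refine goodOf subG cdcGood cutCirc V E G H D ?_ hDH hD hdeg hcut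
  intro V1 E1 _ _ _ _ G1 f g hf hg hgH hends hd hcard hcub hbr D1 hD1
  rcases hok with ⟨hlt, htw⟩ | hsm
  · exact h.min V1 E1 G1 (by omega) (twg_of htw G1 f g hf hgH hends hd) hcub hbr D1 hD1
  · refine cdc14 G1 hcub hbr D1 hD1 (le_trans ?_ hsm)
    rw [← card_univ, ← card_image_of_injective _ hf]
    apply card_le_card
    intro w hw
    obtain ⟨v, _, rfl⟩ := mem_image.1 hw
    exact mem_filter.2 ⟨mem_univ _, hd v⟩

end

end Pool.Agent.TH462.SC
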