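import Pool.Agent.H10R3.SC.CXAll
import Pool.Agent.TH499.TF.LemB2
import Pool.Agent.TH499.TF.TreeP

set_option autoImplicit false
set_option linter.unusedSectionVars false

/-! # Strong circuit double covers for treewidth at most four: definitions and statements -/

namespace Pool.Agent.TH462.SC

open Finset
open Pool.Agent.Helper347.Sab (MGraph dg IsCircuit IsCubic IsCDC)
open Pool.Agent.H444.FA (ext inE inG gPar gTree gClaw gEdge Good)
open Pool.Agent.H10R3.SC (cut ins tou Cr)
open Pool.Agent.TH499.TF (Joins Ad N3 Dbl G5 NoC HasTD Grow)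

section

variable {V E : Type} [Fintype V] [DecidableEq V] [Fintype E] [DecidableEq E]

/-- `G` has a tree decomposition with bags of at most five vertices -/
def TWG (G : MGraph V E) : Prop :=
  ∃ src dst : E → V, (∀ e, G.ends e = s(src e, dst e)) ∧ HasTD 5 src dst

/-- the subgraph with edge set `H` is a subgraph of a graph with such a tree decomposition -/
def TWH (G : MGraph V E) (H : Finset E) : Prop :=
  ∃ (W F : Type) (s d : F → W) (φ : V → W), HasTD 5 s d ∧
    (∀ u v, dg G H u ≠ 0 → dg G H v ≠ 0 → φ u = φ v → u = v) ∧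
    ∀ e ∈ H, ∃ f, ∀ u, u ∈ G.ends e → φ u = s f ∨ φ u = d f

/-- `X` can be replaced by two adjacent vertices `p`, `r`; `q` goes to `p` and `s` goes to `r` -/
def GadTD (src dst : E → V) (X : Finset V) (p q r s : V) : Prop :=
  ∃ ρ : V → V, (∀ v, v ∉ X → ρ v = v) ∧ (∀ v, v ∈ X → ρ v = p ∨ ρ v = r) ∧ ρ p = p ∧ ρ q = p ∧
    ρ r = r ∧ ρ s = r ∧
    HasTD 5 (fun o : Option E => o.elim p (ρ ∘ src)) (fun o : Option E => o.elim r (ρ ∘ dst))

/-- all ways to replace `X` by two adjacent vertices are allowed -/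
def Rich (src dst : E → V) (X : Finset V) : Prop :=
  ∀ p q r s : V, [p, q, r, s].Nodup →
    (∀ t ∈ [p, q, r, s], t ∈ X ∧ ∃ z, z ∉ X ∧ Ad src dst t z) → GadTD src dst X p q r s

end

/-- S2: the structure theorem (generic form of noTD) -/
def S2 : Prop :=
  ∀ (V E : Type) [Fintype V] [DecidableEq V] [Fintype E] [DecidableEq E] (src dst : E → V),
    HasTD 5 src dst → (∃ x y, Ad src dst x y) →
    (∀ x y, Ad src dst x y → ∃ a b c, a ≠ b ∧ b ≠ c ∧ a ≠ c ∧ Ad src dst x a ∧ Ad src dst x b ∧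
      Ad src dst x c) → NoC (Ad src dst) → False

/-- S3: the replacement by contracting the two parts of a partition -/
def S3 : Prop :=
  ∀ (V E : Type) [Fintype V] [DecidableEq V] [Fintype E] [DecidableEq E] (src dst : E → V),
    HasTD 5 src dst → ∀ (A B X : Finset V) (p q r s u v : V), Grow src dst A → Grow src dst B →
    Disjoint A B → X = A ∪ B → p ∈ A → q ∈ A → r ∈ B → s ∈ B → u ∈ A → v ∈ B → Ad src dst u v →
    GadTD src dst X p q r s

/-- S4: the crossing replacement for a circuit of length four -/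
def S4 : Prop :=
  ∀ (V E : Type) [Fintype V] [DecidableEq V] [Fintype E] [DecidableEq E] (src dst : E → V),
    HasTD 5 src dst → ∀ (v0 v1 v2 v3 : V), [v0, v1, v2, v3].Nodup → Ad src dst v0 v1 →
    Ad src dst v1 v2 → Ad src dst v2 v3 → Ad src dst v3 v0 →
    GadTD src dst {v0, v1, v2, v3} v0 v2 v1 v3

/-- S5: gadgets with four legs, attached at the outer ends `x j`; the part outside `X` is kept -/
def S5 : Prop :=
  ∀ (V E : Type) [Fintype V] [DecidableEq V] [Fintype E] [DecidableEq E] (G : MGraph V E)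
    (src dst : E → V), (∀ e, G.ends e = s(src e, dst e)) → ∀ (X : Finset V) (y x : Fin 4 → V)
    (ℓ : Fin 4 → E), Cr G X y x ℓ → ∀ k l l' : Fin 4, k ≠ 0 → l ≠ 0 → l' ≠ 0 → k ≠ l → k ≠ l' →
    l ≠ l' → GadTD src dst X (y 0) (y k) (y l) (y l') →
    (∀ hg, TWH (ext G (gTree x k l l') hg) (inG (ins G univ Xᶜ))) ∧
    ∀ hg, TWH (ext G (gPar x k l l') hg) (inG (ins G univ Xᶜ))

/-- S6: gadgets with three or two legs -/
def S6 : Prop :=
  ∀ (V E : Type) [Fintype V] [DecidableEq V] [Fintype E] [DecidableEq E] (G : MGraph V E)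
    (src dst : E → V), (∀ e, G.ends e = s(src e, dst e)) → HasTD 5 src dst →
    ∀ X : Finset V, Grow src dst X →
    (∀ (y x : Fin 3 → V) (ℓ : Fin 3 → E), Cr G X y x ℓ →
      ∀ hg, TWH (ext G (gClaw x) hg) (inG (ins G univ Xᶜ))) ∧
    ∀ (y x : Fin 2 → V) (ℓ : Fin 2 → E), Cr G X y x ℓ →
      ∀ hg, TWH (ext G (gEdge x) hg) (inG (ins G univ Xᶜ))

/-- S7: circuits of length at most four and the four configurations give a small part that is
left by few edges -/
def S7 : Prop :=
  ∀ (V E : Type) [Fintype V] [DecidableEq V] [Fintype E] [DecidableEq E] (G : MGraph V E)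
    (src dst : E → V), IsCubic G → (∀ e, G.ends e = s(src e, dst e)) → HasTD 5 src dst →
    Nonempty E → ∃ X : Finset V, 2 ≤ X.card ∧ X.card ≤ 12 ∧
      ((cut G univ X).card ≤ 3 ∨ ((cut G univ X).card = 4 ∧ 3 ≤ X.card ∧ Rich src dst X))

/-- S7a: the part from a configuration h23 -/
def S7a : Prop :=
  ∀ (V E : Type) [Fintype V] [DecidableEq V] [Fintype E] [DecidableEq E] (G : MGraph V E)
    (src dst : E → V), IsCubic G → (∀ e, G.ends e = s(src e, dst e)) → HasTD 5 src dst →
    ∀ x y a b c d x' y' : V, [x, y, a, b, c, d, x', y'].Nodup → Dbl (Ad src dst) x y a b c d →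
    Dbl (Ad src dst) x' y' a c b d → (cut G univ {x, y, a, b, c, d, x', y'}).card ≤ 4 ∧
      Rich src dst {x, y, a, b, c, d, x', y'}

/-- S7b: the part from a configuration c1 -/
def S7b : Prop :=
  ∀ (V E : Type) [Fintype V] [DecidableEq V] [Fintype E] [DecidableEq E] (G : MGraph V E)
    (src dst : E → V), IsCubic G → (∀ e, G.ends e = s(src e, dst e)) → HasTD 5 src dst →
    ∀ u v x1 x2 y1 y2 i i' j j' : V, [u, v, x1, x2, y1, y2, i, i', j, j'].Nodup →
    N3 (Ad src dst) u v x1 y1 → N3 (Ad src dst) v u i i' → Dbl (Ad src dst) x1 x2 u j i j' →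
    Dbl (Ad src dst) y1 y2 u j' i' j → (cut G univ {u, v, x1, x2, y1, y2, i, i', j, j'}).card ≤ 4 ∧
      Rich src dst {u, v, x1, x2, y1, y2, i, i', j, j'}

/-- S7c: the parts from the configurations c2 and c3, triangles -/
def S7c : Prop :=
  ∀ (V E : Type) [Fintype V] [DecidableEq V] [Fintype E] [DecidableEq E] (G : MGraph V E)
    (src dst : E → V), IsCubic G → (∀ e, G.ends e = s(src e, dst e)) →
    (∀ x1 u a y1 n c x2 b y2 x3 y3 : V, [x1, u, a, y1, n, c, x2, b, y2, x3, y3].Nodup →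
      Dbl (Ad src dst) x1 y1 u a n c → Dbl (Ad src dst) x2 y2 u b n a →
      Dbl (Ad src dst) x3 y3 u c n b →
      (cut G univ {x1, u, a, y1, n, c, x2, b, y2, x3, y3}).card ≤ 3) ∧
    (∀ x1 u b y1 a n x2 c y2 x3 y3 : V, [x1, u, b, y1, a, n, x2, c, y2, x3, y3].Nodup →
      Dbl (Ad src dst) x1 y1 u b a n → Dbl (Ad src dst) x2 y2 u c a b →
      Dbl (Ad src dst) x3 y3 u a n c →
      (cut G univ {x1, u, b, y1, a, n, x2, c, y2, x3, y3}).card ≤ 3) ∧
    (∀ x y z : V, Ad src dst x y → Ad src dst y z → Ad src dst z x →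
      (cut G univ {x, y, z}).card ≤ 3)

/-- S7d: a circuit of length four -/
def S7d : Prop :=
  ∀ (V E : Type) [Fintype V] [DecidableEq V] [Fintype E] [DecidableEq E] (G : MGraph V E)
    (src dst : E → V), IsCubic G → (∀ e, G.ends e = s(src e, dst e)) → HasTD 5 src dst →
    ∀ v0 v1 v2 v3 : V, [v0, v1, v2, v3].Nodup → Ad src dst v0 v1 → Ad src dst v1 v2 →
    Ad src dst v2 v3 → Ad src dst v3 v0 → (cut G univ {v0, v1, v2, v3}).card ≤ 4 ∧
      Rich src dst {v0, v1, v2, v3}

end Pool.Agent.TH462.SC
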